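import Mathlib

set_option autoImplicit false

namespace Pool.Agent.Results.MP_3b2a32_co.All

open Matrix

/-- vertices of `A_{k^n}`: pairs `(U, V)` with `dim U = 1` and `U ⊕ V = k^n` -/
def Vtx (k : Type) [Field k] (n : ℕ) : Type :=
  {p : Submodule k (Fin n → k) × Submodule k (Fin n → k) //
    Module.finrank k p.1 = 1 ∧ IsCompl p.1 p.2}

/-- the graph `A_{k^n}` -/
def A (k : Type) [Field k] (n : ℕ) : SimpleGraph (Vtx k n) where
  Adj p q := p.1.1 ≤ q.1.2 ∧ q.1.1 ≤ p.1.2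
  symm := ⟨fun _ _ h => ⟨h.2, h.1⟩⟩
  loopless := ⟨fun p h => by
    have h1 : p.1.1 = ⊥ := p.2.2.disjoint.eq_bot_of_le h.1
    have h2 := p.2.1
    rw [h1] at h2
    simp at h2⟩

/-- vector and covector version -/
def B (k : Type) [Field k] (n : ℕ) :
    SimpleGraph {p : (Fin n → k) × (Fin n → k) // p.2 ⬝ᵥ p.1 ≠ 0} where
  Adj p q := p.1.2 ⬝ᵥ q.1.1 = 0 ∧ q.1.2 ⬝ᵥ p.1.1 = 0
  symm := ⟨fun _ _ h => ⟨h.2, h.1⟩⟩
  loopless := ⟨fun p h => p.2 h.1⟩

def fn {k : Type} [Field k] {n : ℕ} (f : Fin n → k) : (Fin n → k) →ₗ[k] k where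
  toFun x := f ⬝ᵥ x
  map_add' := by simp
  map_smul' := by simp

def toA (k : Type) [Field k] (n : ℕ) : B k n →g A k n where
  toFun p := ⟨(Submodule.span k {p.1.1}, LinearMap.ker (fn p.1.2)),
    finrank_span_singleton (fun h => p.2 (by rw [h]; simp)),
    ⟨(Submodule.disjoint_span_singleton_of_notMem (fun h => p.2 h)).symm,
      codisjoint_iff.2 ((fn p.1.2).span_singleton_sup_ker_eq_top p.2)⟩⟩
  map_rel' := by
    intro p q h
    exact ⟨(Submodule.span_singleton_le_iff_mem _ _).2 h.2,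
      (Submodule.span_singleton_le_iff_mem _ _).2 h.1⟩

lemma step (k : Type) [Field k] (n : ℕ) (h : (B k (n + 1)).Colorable (n + 1)) :
    (B k n).Colorable n := by
  obtain ⟨C⟩ := h
  let e : {p : (Fin (n + 1) → k) × (Fin (n + 1) → k) // p.2 ⬝ᵥ p.1 ≠ 0} :=
    ⟨(Fin.cons 1 0, Fin.cons 1 0), by simp [dotProduct, Fin.sum_univ_succ]⟩
  let ι : {p : (Fin n → k) × (Fin n → k) // p.2 ⬝ᵥ p.1 ≠ 0} →
      {p : (Fin (n + 1) → k) × (Fin (n + 1) → k) // p.2 ⬝ᵥ p.1 ≠ 0} := fun p =>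
    ⟨(Fin.cons 0 p.1.1, Fin.cons 0 p.1.2), by simpa [dotProduct, Fin.sum_univ_succ] using p.2⟩
  have h1 : ∀ p, C (ι p) ≠ C e := fun p => C.valid
    ⟨by simp [ι, e, dotProduct, Fin.sum_univ_succ], by simp [ι, e, dotProduct, Fin.sum_univ_succ]⟩
  choose c hc using fun p => Fin.exists_succAbove_eq (h1 p)
  refine ⟨SimpleGraph.Coloring.mk c fun {p q} hpq e' => ?_⟩
  have : (B k (n + 1)).Adj (ι p) (ι q) :=
    ⟨by simpa [ι, dotProduct, Fin.sum_univ_succ] using hpq.1,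
      by simpa [ι, dotProduct, Fin.sum_univ_succ] using hpq.2⟩
  exact C.valid this (by rw [← hc p, ← hc q, e'])

def ext (q : ℕ) : List (List ℕ) → ℕ → (ℕ → ℕ) → Bool
  | [], _, _ => true
  | N :: r, i, c => (List.range q).any fun k =>
      N.all (fun j => c j != k) && ext q r (i + 1) (fun j => if j = i then k else c j)

lemma ext_sound (q : ℕ) (f : ℕ → ℕ) (hf : ∀ i, f i < q) : ∀ (nb : List (List ℕ)) (i : ℕ) (c : ℕ → ℕ),
    (∀ j < i, c j = f j) → (∀ t, ∀ j ∈ nb.getD t [], j < i + t ∧ f j ≠ f (i + t)) →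
    ext q nb i c = true := by
  intro nb
  induction nb with
  | nil => intros; rfl
  | cons N r ih =>
    intro i c hc h
    simp only [ext, List.any_eq_true, List.mem_range, Bool.and_eq_true, List.all_eq_true, bne_iff_ne]
    refine ⟨f i, hf i, fun j hj => ?_, ih _ _ (fun j hj => ?_) (fun t j hj => ?_)⟩
    · have := h 0 j (by simpa using hj)
      rw [hc j (by simpa using this.1)]
      simpa using this.2
    · by_cases e : j = i
      · simp [e]
      · simp only [e, if_false]; exact hc j (by omega)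
    · have := h (t + 1) j (by simpa using hj)
      rw [show i + 1 + t = i + (t + 1) by omega]
      exact this

lemma not_col {n : ℕ} (G : SimpleGraph (Fin (n + 1))) (q : ℕ) (nb : List (List ℕ))
    (h : ∀ t, ∀ j ∈ nb.getD t [], j < t ∧ G.Adj (Fin.ofNat _ j) (Fin.ofNat _ t))
    (he : ext q nb 0 (fun _ => 0) = false) : ¬ G.Colorable q := by
  rintro ⟨C⟩
  have := ext_sound q (fun i => (C (Fin.ofNat _ i)).val) (fun i => (C _).2) nb 0 (fun _ => 0)
    (fun j hj => absurd hj (by omega)) (fun t j hj => ⟨by simpa using (h t j hj).1, fun e => by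
      simp only [Nat.zero_add] at e
      exact C.valid (h t j hj).2 (Fin.ext e)⟩)
  rw [he] at this
  exact absurd this (by decide)

lemma nb_ok {n : ℕ} (G : SimpleGraph (Fin (n + 1))) (nb : List (List ℕ))
    (h : ∀ t < nb.length, ∀ j ∈ nb.getD t [], j < t ∧ G.Adj (Fin.ofNat _ j) (Fin.ofNat _ t)) :
    ∀ t, ∀ j ∈ nb.getD t [], j < t ∧ G.Adj (Fin.ofNat _ j) (Fin.ofNat _ t) := by
  intro t j hj
  by_cases ht : t < nb.length
  · exact h t ht j hj
  · rw [List.getD_eq_default _ _ (by omega)] at hj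
    simp at hj

def U (a : Fin 22) : Fin 3 → ℤ := ([![0, 1, 0], ![1, 1, 1], ![0, 1, 1], ![0, 1, 1], ![1, 0, 0], ![0, 0, 1], ![0, 1, 1], ![0, 1, 1], ![1, 0, 1], ![1, 0, 0], ![1, 0, 0], ![1, 1, 1], ![0, 1, 0], ![1, 0, 1], ![0, 0, 1], ![1, 1, 0], ![0, 0, 1], ![1, -1, 1], ![1, -1, 1], ![0, 1, 1], ![1, -1, -1], ![1, 0, 1]] : List (Fin 3 → ℤ)).getD a.val 0
def F (a : Fin 22) : Fin 3 → ℤ := ([![0, 1, -1], ![1, 0, 0], ![1, 0, -1], ![0, 0, 1], ![1, 0, 0], ![0, 1, -1], ![1, -1, 0], ![0, 1, 0], ![0, 1, -1], ![1, 1, -1], ![1, 0, -1], ![0, 1, 0], ![0, 1, 0], ![0, 0, 1], ![1, 0, -1], ![1, 0, 0], ![1, -1, 1], ![0, 1, 0], ![1, 0, 0], ![1, 1, 0], ![1, 1, -1], ![1, 1, 0]] : List (Fin 3 → ℤ)).getD a.val 0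
def nb : List (List ℕ) := [[], [0], [0, 1], [0], [0, 3], [1, 4], [1, 5], [4, 5], [2, 7], [3, 7, 8], [0, 8], [5, 8, 10], [4, 10], [9, 10, 12], [1, 11, 12], [3, 6], [6, 7, 15], [10, 14], [2, 14], [5, 16, 18], [8, 19], [14, 17, 20]]

lemma unit : ∀ a, F a ⬝ᵥ U a = 1 ∨ F a ⬝ᵥ U a = -1 := by decide +kernel

def G : SimpleGraph (Fin 22) where
  Adj a b := F a ⬝ᵥ U b = 0 ∧ F b ⬝ᵥ U a = 0
  symm := ⟨fun _ _ h => ⟨h.2, h.1⟩⟩
  loopless := ⟨fun a h => by have := unit a; have := h.1; omega⟩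

instance : DecidableRel G.Adj := fun _ _ => inferInstanceAs (Decidable (_ ∧ _))

lemma G4 : ¬ G.Colorable 3 := not_col _ 3 nb (nb_ok _ _ (by decide +kernel)) (by decide +kernel)

lemma cast_dot (k : Type) [Field k] (x y : Fin 3 → ℤ) :
    (fun i => (x i : k)) ⬝ᵥ (fun i => (y i : k)) = ((x ⬝ᵥ y : ℤ) : k) := by
  simp [dotProduct]

def toB (k : Type) [Field k] : G →g B k 3 where
  toFun a := ⟨(fun i => (U a i : k), fun i => (F a i : k)), by
    show (fun i => (F a i : k)) ⬝ᵥ (fun i => (U a i : k)) ≠ 0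
    rw [cast_dot]
    rcases unit a with h | h <;> simp [h]⟩
  map_rel' := by
    intro a b h
    constructor
    · show (fun i => (F a i : k)) ⬝ᵥ (fun i => (U b i : k)) = 0
      rw [cast_dot, h.1]; simp
    · show (fun i => (F b i : k)) ⬝ᵥ (fun i => (U a i : k)) = 0
      rw [cast_dot, h.2]; simp

/-- `χ(A_{k^n}) > n` for every field `k` and every `n ≥ 3`. -/
theorem result : ∀ (k : Type) [Field k] (n : ℕ), 3 ≤ n →
    ¬ (A k n).Colorable n ∧ (n : ℕ∞) < (A k n).chromaticNumber := by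
  intro k _ n hn
  have h : ¬ (B k n).Colorable n := by
    induction n, hn using Nat.le_induction with
    | base => exact fun h => G4 (h.of_hom (toB k))
    | succ n _ ih => exact fun h => ih (step k n h)
  have h' : ¬ (A k n).Colorable n := fun h' => h (h'.of_hom (toA k n))
  exact ⟨h', not_le.1 fun hle => h' (SimpleGraph.chromaticNumber_le_iff_colorable.1 hle)⟩

end Pool.Agent.Results.MP_3b2a32_co.All
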